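import Pool.Agent.Helper6.EC_B.Basic

/-!
# MP_ecc237_nt, Part B, packet REPR: `r` as a superposition of Gaussians.
-/

set_option autoImplicit false

open MeasureTheory Filter Topology Set

noncomputable section

namespace EC237.PB.PkREPR

/-- the joint integrand -/
def kk (x : ℝ) (p : ℝ × ℝ) : ℝ :=
  Real.exp (-(p.1 * (x ^ 2 + 3 + 2 * Real.cosh p.2))) * Ib (p.1 * (4 * Real.cosh (p.2 / 2)))

/-- the function of `v` -/
def Fv (x v : ℝ) : ℝ := 1 / Real.sqrt ((v + x ^ 2 - 1) ^ 2 + 4 * x ^ 2)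

theorem kk_cont (x : ℝ) : Continuous (kk x) := by
  unfold kk
  have h1 : Continuous (fun p : ℝ × ℝ => Ib (p.1 * (4 * Real.cosh (p.2 / 2)))) :=
    Ib_cont.comp (by fun_prop)
  have h2 : Continuous (fun p : ℝ × ℝ => Real.exp (-(p.1 * (x ^ 2 + 3 + 2 * Real.cosh p.2)))) := by
    fun_prop
  exact h2.mul h1

theorem kk_nonneg (x : ℝ) (p : ℝ × ℝ) : 0 ≤ kk x p :=
  mul_nonneg (Real.exp_pos _).le (Ib_pos _).le

theorem cosh_sq_half (u : ℝ) : 16 * Real.cosh (u / 2) ^ 2 = 8 * (1 + Real.cosh u) := by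
  have h := Real.cosh_two_mul (u / 2)
  have h2 := Real.cosh_sq (u / 2)
  rw [show 2 * (u / 2) = u by ring] at h
  rw [h]
  linarith

theorem AB_sq (x u : ℝ) : (x ^ 2 + 3 + 2 * Real.cosh u) ^ 2 - (4 * Real.cosh (u / 2)) ^ 2 =
    (2 + 2 * Real.cosh u + x ^ 2 - 1) ^ 2 + 4 * x ^ 2 := by
  have h := cosh_sq_half u
  have e : (4 * Real.cosh (u / 2)) ^ 2 = 16 * Real.cosh (u / 2) ^ 2 := by ring
  rw [e, h]
  ring

theorem B_lt_A (x u : ℝ) (hx : 0 < x) :
    4 * Real.cosh (u / 2) < x ^ 2 + 3 + 2 * Real.cosh u := by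
  have h := AB_sq x u
  have hpos : 0 < (2 + 2 * Real.cosh u + x ^ 2 - 1) ^ 2 + 4 * x ^ 2 := by positivity
  have hA : 0 ≤ x ^ 2 + 3 + 2 * Real.cosh u := by
    have := Real.cosh_pos u
    positivity
  rw [← h] at hpos
  exact lt_of_pow_lt_pow_left₀ 2 hA (by linarith)

theorem inner (lapi : G_LAPI) (x : ℝ) (hx : 0 < x) (u : ℝ) :
    IntegrableOn (fun q => kk x (q, u)) (Ioi 0) ∧
    ∫ q in Ioi (0:ℝ), kk x (q, u) = Fv x (2 + 2 * Real.cosh u) := by
  have h := lapi (x ^ 2 + 3 + 2 * Real.cosh u) (4 * Real.cosh (u / 2))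
    (by have := Real.cosh_pos (u / 2); positivity) (B_lt_A x u hx)
  rw [AB_sq] at h
  exact h

theorem Fv_int (x : ℝ) :
    IntegrableOn (fun u => Fv x (2 + 2 * Real.cosh u)) (Ioi 0) := by
  have h1 : IntegrableOn (fun u : ℝ => Real.exp (-u)) (Ioi 0) := integrableOn_exp_neg_Ioi 0
  refine Integrable.mono' h1 ?_ ?_
  · apply Measurable.aestronglyMeasurable
    unfold Fv
    fun_prop
  · filter_upwards with u
    have hc : Real.exp u / 2 ≤ Real.cosh u := cosh_ge_exp u
    have he := Real.exp_pos u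
    have hsq : Real.exp u ≤ Real.sqrt ((2 + 2 * Real.cosh u + x ^ 2 - 1) ^ 2 + 4 * x ^ 2) := by
      apply Real.le_sqrt_of_sq_le
      have h3 : Real.exp u ≤ 2 + 2 * Real.cosh u + x ^ 2 - 1 := by nlinarith [sq_nonneg x]
      nlinarith [sq_nonneg x]
    have h0 : 0 ≤ Fv x (2 + 2 * Real.cosh u) := by
      unfold Fv; positivity
    rw [Real.norm_eq_abs, abs_of_nonneg h0]
    unfold Fv
    rw [Real.exp_neg, ← one_div]
    exact one_div_le_one_div_of_le he hsq

theorem kk_int (lapi : G_LAPI) (x : ℝ) (hx : 0 < x) :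
    Integrable (kk x) ((volume.restrict (Ioi (0:ℝ))).prod (volume.restrict (Ioi (0:ℝ)))) := by
  rw [integrable_prod_iff' (kk_cont x).aestronglyMeasurable]
  constructor
  · filter_upwards with u
    exact (inner lapi x hx u).1
  · have h : (fun u => ∫ q in Ioi (0:ℝ), ‖kk x (q, u)‖) =
        fun u => Fv x (2 + 2 * Real.cosh u) := by
      funext u
      rw [← (inner lapi x hx u).2]
      congr 1
      funext q
      rw [Real.norm_eq_abs, abs_of_nonneg (kk_nonneg x _)]
    rw [h]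
    exact Fv_int x

theorem inner' (x q : ℝ) :
    ∫ u in Ioi (0:ℝ), kk x (q, u) = Real.exp (-(x ^ 2 * q)) * Wf q := by
  unfold Wf
  rw [← integral_const_mul]
  congr 1
  funext u
  unfold kk
  simp only
  rw [← mul_assoc (Real.exp (-(x ^ 2 * q))), ← Real.exp_add]
  congr 2
  · ring
  · ring

theorem rr_eq (x : ℝ) : rr x = ∫ v in Ioi (4:ℝ), Fv x v / Real.sqrt (v * (v - 4)) := by
  unfold rr
  apply setIntegral_congr_fun measurableSet_Ioi
  intro v hv
  have hv' : (4:ℝ) < v := hv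
  have h0 : 0 ≤ v * (v - 4) := by nlinarith
  simp only
  unfold Fv
  rw [Real.sqrt_mul h0]
  rw [div_div, mul_comm]

theorem thm (lapi : G_LAPI) (cv4 : G_CV4) : G_REPR := by
  intro x hx
  have hint := kk_int lapi x hx
  have hleft := hint.integral_prod_left
  have e1 : (fun q => ∫ u in Ioi (0:ℝ), kk x (q, u)) =
      fun q => Real.exp (-(x ^ 2 * q)) * Wf q := by
    funext q; exact inner' x q
  constructor
  · rw [e1] at hleft
    exact hleft
  · have hswap := integral_integral_swap (f := fun q u => kk x (q, u)) hint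
    rw [e1] at hswap
    rw [hswap, rr_eq, cv4]
    congr 1
    funext u
    exact (inner lapi x hx u).2

end EC237.PB.PkREPR
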